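import Pool.Agent.H87.Rank.Twist

/-!
Counting curves `y² = x³ + a x + b` by height: the involution `(a, b) ↦ (ζ² a, ζ³ b)`.
-/

open WeierstrassCurve WeierstrassCurve.Affine

universe u

namespace Pool.Agent.H87.Rank

/-- the set `S_B` of pairs `(a, b)` with `4a³ + 27b² ≠ 0`, `H a ≤ B` and `H b ≤ B` -/
def S (k : Type u) [Field k] (H : k → ℝ) (B : ℝ) : Set (k × k) :=
  {e | 4 * e.1 ^ 3 + 27 * e.2 ^ 2 ≠ 0 ∧ H e.1 ≤ B ∧ H e.2 ≤ B}

open Classical in
/-- the rank of the group of `F`-rational points of `E_{a,b} : y² = x³ + a x + b`, `e = (a, b)` -/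
noncomputable def rk (k F : Type u) [Field k] [Field F] [Algebra k F] (e : k × k) : ℕ∞ :=
  Cardinal.toENat (Module.rank ℤ (((E e.1 e.2)⁄F).toAffine.Point))

/-- for every `B`:
(0) `S_B` is finite;
(1) for all `m, n` the number of `e ∈ S_B` with `rk E(k) = m`, `rk E(K) = m + n` equals the number
of `e ∈ S_B` with `rk E(k) = n`, `rk E(K) = m + n`;
(2) among the `e ∈ S_B` with `rk E(K)` odd, as many have even `rk E(k)` as have odd `rk E(k)`;
(3) the sum of `rk E(K)` over `S_B` is twice the sum of `rk E(k)` over `S_B`. -/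
def TwistSymmetric (k K : Type u) [Field k] [Field K] [Algebra k K] (H : k → ℝ) : Prop :=
  ∀ B : ℝ, (S k H B).Finite ∧
    (∀ m n : ℕ, {e ∈ S k H B | rk k k e = m ∧ rk k K e = m + n}.ncard =
      {e ∈ S k H B | rk k k e = n ∧ rk k K e = m + n}.ncard) ∧
    {e ∈ S k H B | (∃ i : ℕ, rk k k e = 2 * i) ∧ ∃ j : ℕ, rk k K e = 2 * j + 1}.ncard =
      {e ∈ S k H B | (∃ i : ℕ, rk k k e = 2 * i + 1) ∧ ∃ j : ℕ, rk k K e = 2 * j + 1}.ncard ∧
    ∑ᶠ e ∈ S k H B, rk k K e = 2 * ∑ᶠ e ∈ S k H B, rk k k e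

section

variable {k K : Type u} [Field k] [Field K] [Algebra k K]

/-- the involution up to isomorphism -/
def tw (ζ : k) (e : k × k) : k × k := (ζ ^ 2 * e.1, ζ ^ 3 * e.2)

open Classical in
theorem rk_scale (F : Type u) [Field F] [Algebra k F] (c : k) (t : F) (ht : t ≠ 0)
    (htc : t ^ 2 = algebraMap k F c) (e : k × k) : rk k F (tw c e) = rk k F e := by
  unfold rk
  have h := (isScaled (K := F) e.1 e.2 c t ht htc).equiv
  have h2 : Module.rank ℤ (((E e.1 e.2)⁄F).toAffine.Point) =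
      Module.rank ℤ (((E (c ^ 2 * e.1) (c ^ 3 * e.2))⁄F).toAffine.Point) :=
    h.toIntLinearEquiv.rank_eq
  rw [h2]
  rfl

open Classical in
theorem rk_add [Algebra.IsQuadraticExtension k K] (h2 : (2 : k) ≠ 0) {ζ : k}
    (hζ : ¬ IsSquare ζ) {s : K} (hs : s ^ 2 = algebraMap k K ζ) (e : k × k) :
    rk k K e = rk k k e + rk k k (tw ζ e) := by
  unfold rk
  rw [rank_twist h2 hζ hs e.1 e.2, map_add]
  rfl

theorem ne_zero_of_not_square {ζ : k} (hζ : ¬ IsSquare ζ) : ζ ≠ 0 := by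
  rintro rfl
  exact hζ ⟨0, by simp⟩

theorem tw_injective {ζ : k} (hζ : ζ ≠ 0) : Function.Injective (tw ζ) := by
  intro e e' h
  unfold tw at h
  rw [Prod.mk.injEq] at h
  exact Prod.ext (mul_left_cancel₀ (pow_ne_zero 2 hζ) h.1) (mul_left_cancel₀ (pow_ne_zero 3 hζ) h.2)

theorem H_pow {ζ : k} {H : k → ℝ} (hH : ∀ x, H (ζ * x) = H x) (n : ℕ) (x : k) :
    H (ζ ^ n * x) = H x := by
  induction n with
  | zero => simp
  | succ n ih => rw [pow_succ', mul_assoc, hH, ih]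

theorem tw_mem {ζ : k} (hζ : ζ ≠ 0) {H : k → ℝ} (hH : ∀ x, H (ζ * x) = H x) {B : ℝ} {e : k × k}
    (he : e ∈ S k H B) : tw ζ e ∈ S k H B := by
  obtain ⟨h1, h2, h3⟩ := he
  refine ⟨?_, ?_, ?_⟩
  · have h4 : 4 * (tw ζ e).1 ^ 3 + 27 * (tw ζ e).2 ^ 2 =
        ζ ^ 6 * (4 * e.1 ^ 3 + 27 * e.2 ^ 2) := by
      show 4 * (ζ ^ 2 * e.1) ^ 3 + 27 * (ζ ^ 3 * e.2) ^ 2 = _
      ring
    rw [h4]
    exact mul_ne_zero (pow_ne_zero 6 hζ) h1
  · show H (ζ ^ 2 * e.1) ≤ B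
    rw [H_pow hH]; exact h2
  · show H (ζ ^ 3 * e.2) ≤ B
    rw [H_pow hH]; exact h3

theorem S_finite {H : k → ℝ} (hfin : ∀ B, {x | H x ≤ B}.Finite) (B : ℝ) : (S k H B).Finite := by
  refine ((hfin B).prod (hfin B)).subset ?_
  rintro e ⟨_, h2, h3⟩
  exact ⟨h2, h3⟩

/-- two finite sets that inject into each other have the same cardinality -/
theorem ncard_eq_of_maps {α : Type*} {A B : Set α} (hA : A.Finite) (hB : B.Finite) (f : α → α)
    (hf : Function.Injective f) (hAB : Set.MapsTo f A B) (hBA : Set.MapsTo f B A) :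
    A.ncard = B.ncard := by
  apply le_antisymm
  · rw [← Set.ncard_image_of_injective A hf]
    exact Set.ncard_le_ncard hAB.image_subset hB
  · rw [← Set.ncard_image_of_injective B hf]
    exact Set.ncard_le_ncard hBA.image_subset hA

theorem twistSymmetric [Algebra.IsQuadraticExtension k K] {ζ : k} {s : K} {H : k → ℝ}
    (h2 : (2 : k) ≠ 0) (hζ : ¬ IsSquare ζ) (hs : s ^ 2 = algebraMap k K ζ)
    (hH : ∀ x, H (ζ * x) = H x) (hfin : ∀ B, {x | H x ≤ B}.Finite) :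
    TwistSymmetric k K H := by
  have hζ0 := ne_zero_of_not_square hζ
  have hs0 : s ≠ 0 := by
    rintro rfl
    apply hζ0
    apply (algebraMap k K).injective
    rw [← hs]; simp
  have hinj := tw_injective hζ0
  -- ranks
  have hadd : ∀ e : k × k, rk k K e = rk k k e + rk k k (tw ζ e) := rk_add h2 hζ hs
  have hK : ∀ e : k × k, rk k K (tw ζ e) = rk k K e := rk_scale K ζ s hs0 hs
  have htt : ∀ e : k × k, rk k k (tw ζ (tw ζ e)) = rk k k e := by
    intro e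
    have h1 : tw ζ (tw ζ e) = tw (ζ ^ 2) e := by
      unfold tw
      apply Prod.ext
      · show ζ ^ 2 * (ζ ^ 2 * e.1) = (ζ ^ 2) ^ 2 * e.1
        ring
      · show ζ ^ 3 * (ζ ^ 3 * e.2) = (ζ ^ 2) ^ 3 * e.2
        ring
    rw [h1]
    exact rk_scale k (ζ ^ 2) ζ hζ0 rfl e
  intro B
  have hS := S_finite hfin B
  refine ⟨hS, ?_, ?_, ?_⟩
  · intro m n
    have key : ∀ (m n : ℕ) (e : k × k), rk k k e = m → rk k K e = m + n →
        rk k k (tw ζ e) = n := by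
      intro m n e h3 h4
      rw [hadd, h3] at h4
      exact ENat.add_right_injective_of_ne_top (ENat.natCast_ne_top m) h4
    apply ncard_eq_of_maps (hS.subset (Set.sep_subset _ _)) (hS.subset (Set.sep_subset _ _))
      (tw ζ) hinj
    · rintro e ⟨he, h3, h4⟩
      exact ⟨tw_mem hζ0 hH he, key m n e h3 h4, by rw [hK, h4]⟩
    · rintro e ⟨he, h3, h4⟩
      refine ⟨tw_mem hζ0 hH he, key n m e h3 (by rw [h4, add_comm]), by rw [hK, h4]⟩
  · apply ncard_eq_of_maps (hS.subset (Set.sep_subset _ _)) (hS.subset (Set.sep_subset _ _))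
      (tw ζ) hinj
    · rintro e ⟨he, ⟨i, h3⟩, ⟨j, h4⟩⟩
      refine ⟨tw_mem hζ0 hH he, ?_, ⟨j, by rw [hK, h4]⟩⟩
      rw [hadd, h3] at h4
      have hne : rk k k (tw ζ e) ≠ ⊤ := by
        intro h5
        rw [h5] at h4
        have h6 : (⊤ : ℕ∞) = ((2 * j + 1 : ℕ) : ℕ∞) := by
          rw [← add_top (2 * (i : ℕ∞)), h4]; push_cast; rfl
        exact ENat.natCast_ne_top _ h6.symm
      obtain ⟨r, hr⟩ := ENat.ne_top_iff_exists.1 hne
      rw [← hr] at h4 ⊢
      have h7 : ((2 * i + r : ℕ) : ℕ∞) = ((2 * j + 1 : ℕ) : ℕ∞) := by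
        push_cast; exact h4
      have h8 : 2 * i + r = 2 * j + 1 := by exact_mod_cast h7
      refine ⟨j - i, ?_⟩
      have h9 : r = 2 * (j - i) + 1 := by omega
      have h10 : ((r : ℕ) : ℕ∞) = ((2 * (j - i) + 1 : ℕ) : ℕ∞) := by rw [h9]
      rw [h10, Nat.cast_add, Nat.cast_mul]
      rfl
    · rintro e ⟨he, ⟨i, h3⟩, ⟨j, h4⟩⟩
      refine ⟨tw_mem hζ0 hH he, ?_, ⟨j, by rw [hK, h4]⟩⟩
      rw [hadd, h3] at h4
      have hne : rk k k (tw ζ e) ≠ ⊤ := by
        intro h5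
        rw [h5] at h4
        have h6 : (⊤ : ℕ∞) = ((2 * j + 1 : ℕ) : ℕ∞) := by
          rw [← add_top (2 * (i : ℕ∞) + 1), h4]; push_cast; rfl
        exact ENat.natCast_ne_top _ h6.symm
      obtain ⟨r, hr⟩ := ENat.ne_top_iff_exists.1 hne
      rw [← hr] at h4 ⊢
      have h7 : ((2 * i + 1 + r : ℕ) : ℕ∞) = ((2 * j + 1 : ℕ) : ℕ∞) := by
        push_cast; exact h4
      have h8 : 2 * i + 1 + r = 2 * j + 1 := by exact_mod_cast h7
      refine ⟨j - i, ?_⟩
      have h9 : r = 2 * (j - i) := by omega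
      have h10 : ((r : ℕ) : ℕ∞) = ((2 * (j - i) : ℕ) : ℕ∞) := by rw [h9]
      rw [h10, Nat.cast_mul]
      rfl
  · rw [finsum_mem_eq_finite_toFinset_sum _ hS, finsum_mem_eq_finite_toFinset_sum _ hS]
    rw [Finset.sum_congr rfl (fun e _ => hadd e), Finset.sum_add_distrib, two_mul]
    congr 1
    -- reindex by `tw ζ`
    have hmaps : Set.MapsTo (tw ζ) (hS.toFinset : Set (k × k)) (hS.toFinset : Set (k × k)) := by
      intro e he
      rw [Set.Finite.coe_toFinset] at he ⊢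
      exact tw_mem hζ0 hH he
    have hsurj := Finset.surjOn_of_injOn_of_card_le (tw ζ) hmaps hinj.injOn le_rfl
    refine Finset.sum_nbij (tw ζ) (fun e he => hmaps he) hinj.injOn hsurj ?_
    intro e _
    rfl

end

end Pool.Agent.H87.Rank
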