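import Mathlib

/-!
Scaling isomorphisms `(x, y) ↦ (u² x, u³ y)` between Weierstrass curves, and the rank of an
abelian group with an involution.
-/

open WeierstrassCurve WeierstrassCurve.Affine

namespace Pool.Agent.H87.Rank

section scale

variable {F : Type*} [Field F] [DecidableEq F] (W W' : WeierstrassCurve F) (u : F)

/-- `W'` is obtained from `W` by scaling with `u` -/
structure IsScaled : Prop where
  ne : u ≠ 0
  h1 : W'.a₁ = u * W.a₁
  h2 : W'.a₂ = u ^ 2 * W.a₂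
  h3 : W'.a₃ = u ^ 3 * W.a₃
  h4 : W'.a₄ = u ^ 4 * W.a₄
  h6 : W'.a₆ = u ^ 6 * W.a₆

variable {W W' u}

theorem IsScaled.symm (h : IsScaled W W' u) : IsScaled W' W u⁻¹ := by
  have hu := h.ne
  refine ⟨inv_ne_zero hu, ?_, ?_, ?_, ?_, ?_⟩
  · rw [h.h1]; field_simp
  · rw [h.h2]; field_simp
  · rw [h.h3]; field_simp
  · rw [h.h4]; field_simp
  · rw [h.h6]; field_simp

theorem IsScaled.equation (h : IsScaled W W' u) {x y : F} (he : W.toAffine.Equation x y) :
    W'.toAffine.Equation (u ^ 2 * x) (u ^ 3 * y) := by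
  rw [Affine.equation_iff'] at he ⊢
  rw [h.h1, h.h2, h.h3, h.h4, h.h6]
  linear_combination u ^ 6 * he

theorem IsScaled.nonsingular (h : IsScaled W W' u) {x y : F} (he : W.toAffine.Nonsingular x y) :
    W'.toAffine.Nonsingular (u ^ 2 * x) (u ^ 3 * y) := by
  rw [Affine.nonsingular_iff'] at he ⊢
  refine ⟨h.equation he.1, ?_⟩
  rw [h.h1, h.h2, h.h3, h.h4]
  rcases he.2 with h1 | h1
  · left
    intro h2
    apply h1
    have h3 : u ^ 4 * (W.a₁ * y - (3 * x ^ 2 + 2 * W.a₂ * x + W.a₄)) = 0 := by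
      linear_combination h2
    exact (mul_eq_zero.1 h3).resolve_left (pow_ne_zero 4 h.ne)
  · right
    intro h2
    apply h1
    have h3 : u ^ 3 * (2 * y + W.a₁ * x + W.a₃) = 0 := by linear_combination h2
    exact (mul_eq_zero.1 h3).resolve_left (pow_ne_zero 3 h.ne)

theorem IsScaled.negY (h : IsScaled W W' u) (x y : F) :
    W'.toAffine.negY (u ^ 2 * x) (u ^ 3 * y) = u ^ 3 * W.toAffine.negY x y := by
  simp only [Affine.negY]
  rw [h.h1, h.h3]
  ring

theorem IsScaled.slope (h : IsScaled W W' u) {x₁ x₂ y₁ y₂ : F} :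
    W'.toAffine.slope (u ^ 2 * x₁) (u ^ 2 * x₂) (u ^ 3 * y₁) (u ^ 3 * y₂) =
      u * W.toAffine.slope x₁ x₂ y₁ y₂ := by
  have hu := h.ne
  have hu2 : u ^ 2 ≠ 0 := pow_ne_zero 2 hu
  have hu3 : u ^ 3 ≠ 0 := pow_ne_zero 3 hu
  by_cases hx : x₁ = x₂
  · by_cases hy : y₁ = W.toAffine.negY x₂ y₂
    · rw [Affine.slope_of_Y_eq hx hy, mul_zero]
      apply Affine.slope_of_Y_eq
      · rw [hx]
      · rw [h.negY, hy]
    · have hy' : u ^ 3 * y₁ ≠ W'.toAffine.negY (u ^ 2 * x₂) (u ^ 3 * y₂) := by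
        rw [h.negY]
        intro h1
        exact hy (mul_left_cancel₀ hu3 h1)
      rw [Affine.slope_of_Y_ne hx hy, Affine.slope_of_Y_ne (by rw [hx]) hy']
      rw [h.negY, h.h1, h.h2, h.h4]
      have h5 : u ^ 3 * y₁ - u ^ 3 * W.toAffine.negY x₁ y₁ =
          u ^ 3 * (y₁ - W.toAffine.negY x₁ y₁) := by ring
      rw [h5]
      have h6 : 3 * (u ^ 2 * x₁) ^ 2 + 2 * (u ^ 2 * W.a₂) * (u ^ 2 * x₁) + u ^ 4 * W.a₄ -
          u * W.a₁ * (u ^ 3 * y₁) =
          u ^ 3 * (u * (3 * x₁ ^ 2 + 2 * W.a₂ * x₁ + W.a₄ - W.a₁ * y₁)) := by ring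
      rw [h6, mul_div_mul_left _ _ hu3, mul_div_assoc]
  · have hx' : u ^ 2 * x₁ ≠ u ^ 2 * x₂ := fun h1 => hx (mul_left_cancel₀ hu2 h1)
    rw [Affine.slope_of_X_ne hx, Affine.slope_of_X_ne hx']
    have h5 : u ^ 2 * x₁ - u ^ 2 * x₂ = u ^ 2 * (x₁ - x₂) := by ring
    have h6 : u ^ 3 * y₁ - u ^ 3 * y₂ = u ^ 2 * (u * (y₁ - y₂)) := by ring
    rw [h5, h6, mul_div_mul_left _ _ hu2, mul_div_assoc]

/-- the map `(x, y) ↦ (u² x, u³ y)` on points -/
noncomputable def IsScaled.fun (h : IsScaled W W' u) : W.toAffine.Point → W'.toAffine.Point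
  | .zero => .zero
  | .some x y hn => .some (u ^ 2 * x) (u ^ 3 * y) (h.nonsingular hn)

theorem some_congr {x x' y y' : F} (hx : x = x') (hy : y = y') (h : W.toAffine.Nonsingular x y)
    (h' : W.toAffine.Nonsingular x' y') :
    (Affine.Point.some x y h : W.toAffine.Point) = Affine.Point.some x' y' h' := by
  subst hx; subst hy; rfl

theorem IsScaled.fun_add (h : IsScaled W W' u) (P Q : W.toAffine.Point) :
    h.fun (P + Q) = h.fun P + h.fun Q := by
  rcases P with _ | ⟨x₁, y₁, h₁⟩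
  · show h.fun (0 + Q) = 0 + h.fun Q
    rw [zero_add, zero_add]
  rcases Q with _ | ⟨x₂, y₂, h₂⟩
  · show h.fun (_ + 0) = _ + 0
    rw [add_zero, add_zero]
  by_cases hxy : x₁ = x₂ ∧ y₁ = W.toAffine.negY x₂ y₂
  · rw [Point.add_of_Y_eq hxy.1 hxy.2]
    show (0 : W'.toAffine.Point) = Point.some _ _ _ + Point.some _ _ _
    rw [Point.add_of_Y_eq]
    · rw [hxy.1]
    · rw [h.negY, hxy.2]
  · have hxy' : ¬ (u ^ 2 * x₁ = u ^ 2 * x₂ ∧
        u ^ 3 * y₁ = W'.toAffine.negY (u ^ 2 * x₂) (u ^ 3 * y₂)) := by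
      rintro ⟨h1, h2⟩
      rw [h.negY] at h2
      exact hxy ⟨mul_left_cancel₀ (pow_ne_zero 2 h.ne) h1,
        mul_left_cancel₀ (pow_ne_zero 3 h.ne) h2⟩
    rw [Point.add_some hxy]
    show Point.some _ _ _ = Point.some _ _ _ + Point.some _ _ _
    rw [Point.add_some hxy']
    have hX : u ^ 2 * W.toAffine.addX x₁ x₂ (W.toAffine.slope x₁ x₂ y₁ y₂) =
        W'.toAffine.addX (u ^ 2 * x₁) (u ^ 2 * x₂)
          (W'.toAffine.slope (u ^ 2 * x₁) (u ^ 2 * x₂) (u ^ 3 * y₁) (u ^ 3 * y₂)) := by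
      rw [h.slope]
      simp only [Affine.addX]
      rw [h.h1, h.h2]
      ring
    apply some_congr
    · exact hX
    · simp only [Affine.addY, Affine.negAddY]
      rw [← hX, h.slope, ← h.negY]
      congr 1
      ring

/-- the isomorphism `(x, y) ↦ (u² x, u³ y)` -/
noncomputable def IsScaled.equiv (h : IsScaled W W' u) :
    W.toAffine.Point ≃+ W'.toAffine.Point where
  toFun := h.fun
  invFun := h.symm.fun
  left_inv := by
    rintro (_ | ⟨x, y, hn⟩)
    · rfl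
    · have hu := h.ne
      apply some_congr
      · field_simp
      · field_simp
  right_inv := by
    rintro (_ | ⟨x, y, hn⟩)
    · rfl
    · have hu := h.ne
      apply some_congr
      · field_simp
      · field_simp
  map_add' := h.fun_add

end scale

end Pool.Agent.H87.Rank
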