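import Pool.Agent.H87.Rank.Scale

/-!
Rank of an elliptic curve over a quadratic extension `K = k(√ζ)`:
`rank E(K) = rank E(k) + rank E^ζ(k)` for `E : y² = x³ + a x + b`,
`E^ζ : y² = x³ + ζ² a x + ζ³ b`.
-/

open WeierstrassCurve WeierstrassCurve.Affine

universe u

namespace Pool.Agent.H87.Rank

/-- rank is additive for two subgroups with torsion intersection whose sum contains `2 G` -/
theorem rank_add {G A B : Type u} [AddCommGroup G] [AddCommGroup A] [AddCommGroup B]
    (i : A →+ G) (j : B →+ G) (hi : Function.Injective i) (hj : Function.Injective j)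
    (hdisj : ∀ a b, i a = j b → 2 • i a = 0) (hspan : ∀ g, ∃ a b, 2 • g = i a + j b) :
    Module.rank ℤ G = Module.rank ℤ A + Module.rank ℤ B := by
  have hprod : Module.rank ℤ (A × B) = Module.rank ℤ A + Module.rank ℤ B := by
    have h1 := Submodule.rank_quotient_add_rank (LinearMap.ker (LinearMap.fst ℤ A B))
    have h2 : Module.rank ℤ ((A × B) ⧸ LinearMap.ker (LinearMap.fst ℤ A B)) = Module.rank ℤ A :=
      ((LinearMap.fst ℤ A B).quotKerEquivOfSurjective LinearMap.fst_surjective).rank_eq
    have h3 : Module.rank ℤ (LinearMap.ker (LinearMap.fst ℤ A B)) = Module.rank ℤ B := by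
      have e : B ≃ₗ[ℤ] LinearMap.ker (LinearMap.fst ℤ A B) :=
        { toFun := fun b => ⟨(0, b), by simp⟩
          invFun := fun x => x.1.2
          map_add' := fun x y => by ext <;> simp
          map_smul' := fun c x => by ext <;> simp
          left_inv := fun b => rfl
          right_inv := by
            rintro ⟨⟨x, y⟩, hxy⟩
            have : x = 0 := hxy
            subst this
            rfl }
      exact e.rank_eq.symm
    rw [h2, h3] at h1
    exact h1.symm
  let f : (A × B) →ₗ[ℤ] G := (i.toIntLinearMap).coprod (j.toIntLinearMap)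
  have hf : ∀ a b, f (a, b) = i a + j b := fun a b => by simp [f]
  have hker : Module.rank ℤ (LinearMap.ker f) = 0 := by
    rw [rank_eq_zero_iff]
    rintro ⟨⟨a, b⟩, hab⟩
    refine ⟨2, by norm_num, ?_⟩
    have h1 : i a + j b = 0 := by
      rw [← hf]; exact hab
    have h2 : i a = j (-b) := by
      rw [map_neg]
      exact eq_neg_of_add_eq_zero_left h1
    have h3 : 2 • i a = 0 := hdisj a (-b) h2
    have h4 : 2 • a = 0 := by
      apply hi
      rw [map_nsmul, h3, map_zero]
    have h5 : 2 • b = 0 := by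
      apply hj
      have h6 : 2 • i a + 2 • j b = 0 := by rw [← nsmul_add, h1, nsmul_zero]
      rw [h3, zero_add] at h6
      rw [map_nsmul, h6, map_zero]
    apply Subtype.ext
    show ((2 : ℤ) • a, (2 : ℤ) • b) = (0, 0)
    have h7 : (2 : ℤ) • a = 0 := by
      have := natCast_zsmul a 2
      push_cast at this
      rw [this, h4]
    have h8 : (2 : ℤ) • b = 0 := by
      have := natCast_zsmul b 2
      push_cast at this
      rw [this, h5]
    rw [h7, h8]
  have hcok : Module.rank ℤ (G ⧸ LinearMap.range f) = 0 := by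
    rw [rank_eq_zero_iff]
    intro q
    refine ⟨2, by norm_num, ?_⟩
    obtain ⟨g, rfl⟩ := Submodule.Quotient.mk_surjective _ q
    rw [← Submodule.Quotient.mk_smul, Submodule.Quotient.mk_eq_zero]
    obtain ⟨a, b, hab⟩ := hspan g
    refine ⟨(a, b), ?_⟩
    rw [hf, ← hab]
    have := natCast_zsmul g 2
    push_cast at this
    exact this.symm
  have h1 := Submodule.rank_quotient_add_rank (LinearMap.range f)
  have h2 := Submodule.rank_quotient_add_rank (LinearMap.ker f)
  have h3 := (LinearMap.quotKerEquivRange f).rank_eq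
  rw [hcok, zero_add] at h1
  rw [hker, add_zero, h3] at h2
  rw [← h1, h2, hprod]

section field

variable {k K : Type u} [Field k] [Field K] [Algebra k K]

/-- the nontrivial automorphism of `K = k(√ζ)` -/
theorem exists_conj [Algebra.IsQuadraticExtension k K] (h2 : (2 : k) ≠ 0) {ζ : k}
    (hζ : ¬ IsSquare ζ) {s : K} (hs : s ^ 2 = algebraMap k K ζ) :
    ∃ σ : K →ₐ[k] K, (∀ x, σ (σ x) = x) ∧ σ s = -s ∧ ∀ x, σ x = x → ∃ y, algebraMap k K y = x := by
  have hs0 : s ∉ Set.range (algebraMap k K) := by
    rintro ⟨y, rfl⟩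
    apply hζ
    refine ⟨y, ?_⟩
    apply (algebraMap k K).injective
    rw [map_mul, ← hs, sq]
  have h2K : (2 : K) ≠ 0 := by
    intro h
    apply h2
    apply (algebraMap k K).injective
    rw [map_ofNat, h, map_zero]
  have hfr : Module.finrank k K = 2 := Algebra.IsQuadraticExtension.finrank_eq_two k K
  -- `1, s` is a basis
  have hli : LinearIndependent k ![(1 : K), s] := by
    rw [LinearIndependent.pair_iff]
    intro c d h
    by_cases hd : d = 0
    · subst hd
      simp only [zero_smul, add_zero] at h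
      refine ⟨?_, rfl⟩
      rw [Algebra.smul_def, mul_one] at h
      exact (map_eq_zero (algebraMap k K)).1 h
    · exfalso
      apply hs0
      refine ⟨-(c / d), ?_⟩
      have hdK : algebraMap k K d ≠ 0 := fun h' => hd ((map_eq_zero _).1 h')
      rw [Algebra.smul_def, Algebra.smul_def, mul_one] at h
      rw [map_neg, map_div₀]
      field_simp
      linear_combination (-1 : K) * h
  have : FiniteDimensional k K := Module.finite_of_finrank_pos (by rw [hfr]; norm_num)
  have hspan : ∀ z : K, ∃ c d : k, z = algebraMap k K c + algebraMap k K d * s := by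
    intro z
    have htop : Submodule.span k (Set.range ![(1 : K), s]) = ⊤ :=
      hli.span_eq_top_of_card_eq_finrank' (by simp [hfr])
    have hz : z ∈ Submodule.span k (Set.range ![(1 : K), s]) := by rw [htop]; trivial
    rw [Matrix.range_cons, Matrix.range_cons, Matrix.range_empty, Set.union_empty,
      Set.singleton_union, Submodule.mem_span_pair] at hz
    obtain ⟨c, d, hcd⟩ := hz
    exact ⟨c, d, by rw [← hcd, Algebra.smul_def, Algebra.smul_def, mul_one]⟩
  have huniq : ∀ c d c' d' : k, algebraMap k K c + algebraMap k K d * s =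
      algebraMap k K c' + algebraMap k K d' * s → c = c' ∧ d = d' := by
    intro c d c' d' h
    have h1 := (LinearIndependent.pair_iff.1 hli) (c - c') (d - d') (by
      rw [Algebra.smul_def, Algebra.smul_def, mul_one, map_sub, map_sub]
      linear_combination h)
    exact ⟨sub_eq_zero.1 h1.1, sub_eq_zero.1 h1.2⟩
  choose c d hcd using hspan
  let τ : K → K := fun z => algebraMap k K (c z) - algebraMap k K (d z) * s
  have hτ : ∀ x y : k, τ (algebraMap k K x + algebraMap k K y * s) =
      algebraMap k K x - algebraMap k K y * s := by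
    intro x y
    have h := huniq _ _ _ _ (hcd (algebraMap k K x + algebraMap k K y * s))
    show algebraMap k K (c _) - algebraMap k K (d _) * s = _
    rw [← h.1, ← h.2]
  let σ : K →ₐ[k] K :=
    { toFun := τ
      map_one' := by
        have := hτ 1 0
        simpa using this
      map_zero' := by
        have := hτ 0 0
        simpa using this
      map_add' := by
        intro x y
        have h1 : x + y = algebraMap k K (c x + c y) + algebraMap k K (d x + d y) * s := by
          conv_lhs => rw [hcd x, hcd y]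
          rw [map_add, map_add]; ring
        rw [h1, hτ]
        show _ = (algebraMap k K (c x) - algebraMap k K (d x) * s) +
          (algebraMap k K (c y) - algebraMap k K (d y) * s)
        rw [map_add, map_add]; ring
      map_mul' := by
        intro x y
        have h1 : x * y = algebraMap k K (c x * c y + ζ * (d x * d y)) +
            algebraMap k K (c x * d y + d x * c y) * s := by
          conv_lhs => rw [hcd x, hcd y]
          simp only [map_add, map_mul]
          rw [← hs]; ring
        rw [h1, hτ]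
        show _ = (algebraMap k K (c x) - algebraMap k K (d x) * s) *
          (algebraMap k K (c y) - algebraMap k K (d y) * s)
        simp only [map_add, map_mul]
        rw [← hs]; ring
      commutes' := by
        intro r
        have := hτ r 0
        simpa using this }
  have hσ : ∀ z, σ z = algebraMap k K (c z) - algebraMap k K (d z) * s := fun z => rfl
  have hσs : σ s = -s := by
    have := hτ 0 1
    have h3 : σ s = τ s := rfl
    rw [h3]
    simpa using this
  refine ⟨σ, ?_, hσs, ?_⟩
  · intro x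
    rw [hσ x, map_sub, map_mul, σ.commutes, σ.commutes, hσs]
    conv_rhs => rw [hcd x]
    ring
  · intro x hx
    rw [hσ x] at hx
    have h3 : algebraMap k K (c x) - algebraMap k K (d x) * s =
        algebraMap k K (c x) + algebraMap k K (d x) * s := hx.trans (hcd x)
    have h4 : (2 : K) * (algebraMap k K (d x) * s) = 0 := by linear_combination (-1 : K) * h3
    have h5 : algebraMap k K (d x) * s = 0 := (mul_eq_zero.1 h4).resolve_left h2K
    refine ⟨c x, ?_⟩
    conv_rhs => rw [hcd x, h5, add_zero]

/-- the curve `y² = x³ + a x + b` -/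
def E (a b : k) : WeierstrassCurve k := ⟨0, 0, 0, a, b⟩

variable [DecidableEq K]

theorem map_some' (W : WeierstrassCurve k) (σ : K →ₐ[k] K) {x y : K}
    (h : ((W⁄K).toAffine).Nonsingular x y) :
    ∃ h' : ((W⁄K).toAffine).Nonsingular (σ x) (σ y),
      Point.map (W' := W) σ (Point.some x y h) = Point.some (σ x) (σ y) h' :=
  ⟨_, rfl⟩

/-- points fixed by the automorphism are defined over `k` -/
theorem mem_range_of_fixed [DecidableEq k] (W : WeierstrassCurve k) (σ : K →ₐ[k] K)
    (hfix : ∀ x, σ x = x → ∃ y, algebraMap k K y = x) (P : (W⁄K).toAffine.Point)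
    (hP : Point.map (W' := W) σ P = P) :
    ∃ Q : (W⁄k).toAffine.Point, Point.baseChange (W' := W) k K Q = P := by
  rcases P with _ | ⟨x, y, h⟩
  · exact ⟨0, map_zero _⟩
  · obtain ⟨h', he⟩ := map_some' W σ h
    rw [he] at hP
    rw [Point.some.injEq] at hP
    obtain ⟨x₀, hx₀⟩ := hfix x hP.1
    obtain ⟨y₀, hy₀⟩ := hfix y hP.2
    subst hx₀
    subst hy₀
    have h0 : ((W⁄k).toAffine).Nonsingular x₀ y₀ :=
      (Affine.baseChange_nonsingular W (f := Algebra.ofId k K)
        (algebraMap k K).injective x₀ y₀).1 h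
    exact ⟨Point.some x₀ y₀ h0, rfl⟩

omit [DecidableEq K] in
theorem isScaled (a b ζ : k) (s : K) (hs0 : s ≠ 0) (hs : s ^ 2 = algebraMap k K ζ) :
    IsScaled ((E a b)⁄K) ((E (ζ ^ 2 * a) (ζ ^ 3 * b))⁄K) s := by
  refine ⟨hs0, ?_, ?_, ?_, ?_, ?_⟩
  · show algebraMap k K 0 = s * algebraMap k K 0
    rw [map_zero, mul_zero]
  · show algebraMap k K 0 = s ^ 2 * algebraMap k K 0
    rw [map_zero, mul_zero]
  · show algebraMap k K 0 = s ^ 3 * algebraMap k K 0
    rw [map_zero, mul_zero]
  · show algebraMap k K (ζ ^ 2 * a) = s ^ 4 * algebraMap k K a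
    rw [map_mul, map_pow, ← hs]; ring
  · show algebraMap k K (ζ ^ 3 * b) = s ^ 6 * algebraMap k K b
    rw [map_mul, map_pow, ← hs]; ring

/-- the automorphism acts on the twisted points as `-1` -/
theorem anti_iff (a b ζ : k) (s : K) (hs0 : s ≠ 0) (hs : s ^ 2 = algebraMap k K ζ)
    (σ : K →ₐ[k] K) (hσs : σ s = -s) (P : ((E a b)⁄K).toAffine.Point) :
    Point.map (W' := E (ζ ^ 2 * a) (ζ ^ 3 * b)) σ ((isScaled a b ζ s hs0 hs).equiv P) =
      (isScaled a b ζ s hs0 hs).equiv P ↔ Point.map (W' := E a b) σ P = -P := by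
  rcases P with _ | ⟨x, y, h⟩
  · constructor
    · intro _
      show (0 : ((E a b)⁄K).toAffine.Point) = -0
      rw [neg_zero]
    · intro _; rfl
  · obtain ⟨h', he⟩ := map_some' (E a b) σ h
    have he2 : (isScaled a b ζ s hs0 hs).equiv (Point.some x y h) =
      Point.some (s ^ 2 * x) (s ^ 3 * y) ((isScaled a b ζ s hs0 hs).nonsingular h) := rfl
    obtain ⟨h'', he'⟩ := map_some' (E (ζ ^ 2 * a) (ζ ^ 3 * b)) σ
      ((isScaled a b ζ s hs0 hs).nonsingular h)
    rw [he, he2, he', Point.neg_some, Point.some.injEq, Point.some.injEq]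
    have hneg : ((E a b)⁄K).toAffine.negY x y = -y := by
      show -y - algebraMap k K 0 * x - algebraMap k K 0 = -y
      rw [map_zero]; ring
    rw [hneg, map_mul, map_mul, map_pow, map_pow, hσs]
    have hs2 : s ^ 2 ≠ 0 := pow_ne_zero 2 hs0
    have hs3 : s ^ 3 ≠ 0 := pow_ne_zero 3 hs0
    constructor
    · rintro ⟨h1, h2⟩
      constructor
      · apply mul_left_cancel₀ hs2
        linear_combination h1
      · apply mul_left_cancel₀ hs3
        linear_combination (-1 : K) * h2
    · rintro ⟨h1, h2⟩
      rw [h1, h2]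
      constructor <;> ring

theorem map_map_id (W : WeierstrassCurve k) (σ : K →ₐ[k] K) (hσ : ∀ x, σ (σ x) = x)
    (P : (W⁄K).toAffine.Point) : Point.map (W' := W) σ (Point.map (W' := W) σ P) = P := by
  rcases P with _ | ⟨x, y, h⟩
  · rfl
  · obtain ⟨h', he⟩ := map_some' W σ h
    rw [he]
    obtain ⟨h'', he'⟩ := map_some' W σ h'
    rw [he']
    exact some_congr (hσ x) (hσ y) _ _

/-- `rank E(K) = rank E(k) + rank E^ζ(k)` -/
theorem rank_twist [DecidableEq k] [Algebra.IsQuadraticExtension k K] (h2 : (2 : k) ≠ 0) {ζ : k}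
    (hζ : ¬ IsSquare ζ) {s : K} (hs : s ^ 2 = algebraMap k K ζ) (a b : k) :
    Module.rank ℤ (((E a b)⁄K).toAffine.Point) =
      Module.rank ℤ (((E a b)⁄k).toAffine.Point) +
      Module.rank ℤ (((E (ζ ^ 2 * a) (ζ ^ 3 * b))⁄k).toAffine.Point) := by
  obtain ⟨σ, hσσ, hσs, hfix⟩ := exists_conj h2 hζ hs
  have hs0 : s ≠ 0 := by
    rintro rfl
    apply hζ
    refine ⟨0, ?_⟩
    apply (algebraMap k K).injective
    rw [← hs]; simp
  let i : ((E a b)⁄k).toAffine.Point →+ ((E a b)⁄K).toAffine.Point :=
    Point.baseChange (W' := E a b) k K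
  let j : ((E (ζ ^ 2 * a) (ζ ^ 3 * b))⁄k).toAffine.Point →+ ((E a b)⁄K).toAffine.Point :=
    (isScaled a b ζ s hs0 hs).equiv.symm.toAddMonoidHom.comp
      (Point.baseChange (W' := E (ζ ^ 2 * a) (ζ ^ 3 * b)) k K)
  have hfixi : ∀ Q, Point.map (W' := E a b) σ (i Q) = i Q := fun Q =>
    Point.map_baseChange (W' := E a b) σ Q
  have hantij : ∀ Q, Point.map (W' := E a b) σ (j Q) = -j Q := by
    intro Q
    rw [← anti_iff a b ζ s hs0 hs σ hσs (j Q)]
    have h1 : (isScaled a b ζ s hs0 hs).equiv (j Q) =
        Point.baseChange (W' := E (ζ ^ 2 * a) (ζ ^ 3 * b)) k K Q :=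
      (isScaled a b ζ s hs0 hs).equiv.apply_symm_apply _
    rw [h1]
    exact Point.map_baseChange (W' := E (ζ ^ 2 * a) (ζ ^ 3 * b)) σ Q
  refine rank_add i j (Point.map_injective _) ?_ ?_ ?_
  · exact (isScaled a b ζ s hs0 hs).equiv.symm.injective.comp (Point.map_injective _)
  · intro x y hxy
    have h1 := hfixi x
    rw [hxy, hantij y, ← hxy] at h1
    -- h1 : - i x = i x
    rw [two_nsmul]
    nth_rewrite 1 [← h1]
    exact neg_add_cancel _
  · intro P
    have hQP : Point.map (W' := E a b) σ (Point.map (W' := E a b) σ P) = P :=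
      map_map_id (E a b) σ hσσ P
    generalize hQ : Point.map (W' := E a b) σ P = Q at hQP
    obtain ⟨x, hx⟩ := mem_range_of_fixed (E a b) σ hfix (P + Q) (by
      rw [map_add, hQP, hQ, add_comm])
    have hanti : Point.map (W' := E a b) σ (P - Q) = -(P - Q) := by
      rw [map_sub, hQP, hQ, neg_sub]
    rw [← anti_iff a b ζ s hs0 hs σ hσs (P - Q)] at hanti
    obtain ⟨y, hy⟩ := mem_range_of_fixed (E (ζ ^ 2 * a) (ζ ^ 3 * b)) σ hfix _ hanti
    refine ⟨x, y, ?_⟩
    have h1 : i x = P + Q := hx
    have h2 : j y = P - Q := by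
      show (isScaled a b ζ s hs0 hs).equiv.symm
        (Point.baseChange (W' := E (ζ ^ 2 * a) (ζ ^ 3 * b)) k K y) = P - Q
      rw [hy]
      exact (isScaled a b ζ s hs0 hs).equiv.symm_apply_apply _
    rw [h1, h2, two_nsmul]
    abel

end field

end Pool.Agent.H87.Rank
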